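import Pool.Agent.W397.EO.Stm

set_option autoImplicit false

namespace Pool.Agent.W696.EO.SUB

open Finset

theorem main : Pool.Agent.W397.EO.S_SUB := by
  intro V _ P Q f hPQ
  have h1 : ∑ S ∈ (P ∪ Q).powerset, f (S ∩ P).card (S ∩ Q).card =
      ∑ x ∈ P.powerset ×ˢ Q.powerset, f x.1.card x.2.card := by
    refine Finset.sum_bij' (fun S _ => (S ∩ P, S ∩ Q)) (fun x _ => x.1 ∪ x.2) ?_ ?_ ?_ ?_ ?_
    · intro S _
      exact Finset.mem_product.mpr ⟨Finset.mem_powerset.mpr Finset.inter_subset_right,
        Finset.mem_powerset.mpr Finset.inter_subset_right⟩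
    · intro x hx
      have hx' := Finset.mem_product.mp hx
      exact Finset.mem_powerset.mpr (Finset.union_subset_union
        (Finset.mem_powerset.mp hx'.1) (Finset.mem_powerset.mp hx'.2))
    · intro S hS
      rw [← Finset.inter_union_distrib_left]
      exact Finset.inter_eq_left.mpr (Finset.mem_powerset.mp hS)
    · intro x hx
      have hx' := Finset.mem_product.mp hx
      have ha := Finset.mem_powerset.mp hx'.1
      have hb := Finset.mem_powerset.mp hx'.2
      have e1 : (x.1 ∪ x.2) ∩ P = x.1 := by
        rw [Finset.union_inter_distrib_right, Finset.inter_eq_left.mpr ha]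
        have : x.2 ∩ P = ∅ := by
          rw [← Finset.disjoint_iff_inter_eq_empty]
          exact (hPQ.mono_right hb).symm
        rw [this, Finset.union_empty]
      have e2 : (x.1 ∪ x.2) ∩ Q = x.2 := by
        rw [Finset.union_inter_distrib_right, Finset.inter_eq_left.mpr hb]
        have : x.1 ∩ Q = ∅ := by
          rw [← Finset.disjoint_iff_inter_eq_empty]
          exact hPQ.mono_left ha
        rw [this, Finset.empty_union]
      exact Prod.ext e1 e2
    · intro S _
      rfl
  rw [h1, Finset.sum_product]
  have h2 : ∀ A : Finset V, ∑ B ∈ Q.powerset, f A.card B.card =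
      ∑ b ∈ Finset.range (Q.card + 1), (Q.card.choose b : ℝ) * f A.card b := by
    intro A
    rw [Finset.sum_powerset_apply_card (fun b => f A.card b)]
    simp [nsmul_eq_mul]
  simp only [h2]
  rw [Finset.sum_powerset_apply_card
    (fun a => ∑ b ∈ Finset.range (Q.card + 1), (Q.card.choose b : ℝ) * f a b)]
  refine Finset.sum_congr rfl fun a _ => ?_
  rw [nsmul_eq_mul, Finset.mul_sum]
  refine Finset.sum_congr rfl fun b _ => ?_
  ring

end Pool.Agent.W696.EO.SUB
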